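import Pool.Agent.Helper67.NO.St3

/-!
Project NO (MP_26be5b_ag), module ODE: the descent flow inside the subalgebra.
-/

set_option autoImplicit false

namespace Pool.Agent.Helper42.NO

open Pool.Agent.Helper67.NO
open Matrix
open scoped Matrix.Norms.Frobenius ContDiff Topology

section basic

variable {n : Type} [Fintype n] [DecidableEq n]

private theorem tr_sq (a : Matrix n n ℂ) : trace (aᴴ * a) = ((‖a‖ ^ 2 : ℝ) : ℂ) := by
  have h0 : 0 ≤ ∑ i, ∑ j, ‖a i j‖ ^ 2 :=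
    Finset.sum_nonneg fun i _ => Finset.sum_nonneg fun j _ => by positivity
  have h1 : ‖a‖ ^ 2 = ∑ i, ∑ j, ‖a i j‖ ^ 2 := by
    have h2 : ‖a‖ = Real.sqrt (∑ i, ∑ j, ‖a i j‖ ^ 2) := by
      rw [frobenius_norm_def, Real.sqrt_eq_rpow]
      congr 1
      refine Finset.sum_congr rfl fun i _ => Finset.sum_congr rfl fun j _ => ?_
      exact Real.rpow_natCast _ 2
    rw [h2, Real.sq_sqrt h0]
  rw [h1, Matrix.trace]
  simp only [Matrix.diag_apply, Matrix.mul_apply, Matrix.conjTranspose_apply]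
  rw [Finset.sum_comm]
  push_cast
  refine Finset.sum_congr rfl fun i _ => Finset.sum_congr rfl fun j _ => ?_
  have := Complex.conj_mul' (a i j)
  exact this

private theorem conj_shift (A g₀ g : Matrix n n ℂ) (h : IsUnit g₀) :
    g * A * g⁻¹ = (g * g₀⁻¹) * (g₀ * A * g₀⁻¹) * (g * g₀⁻¹)⁻¹ := by
  have hd : IsUnit g₀.det := (Matrix.isUnit_iff_isUnit_det g₀).1 h
  have e1 : (g * g₀⁻¹)⁻¹ = g₀ * g⁻¹ := by
    rw [Matrix.mul_inv_rev, Matrix.nonsing_inv_nonsing_inv g₀ hd]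
  have e2 : g₀⁻¹ * g₀ = 1 := Matrix.nonsing_inv_mul g₀ hd
  calc g * A * g⁻¹ = g * (g₀⁻¹ * g₀) * A * (g₀⁻¹ * g₀) * g⁻¹ := by rw [e2, mul_one, mul_one]
    _ = _ := by rw [e1]; simp only [mul_assoc]

/-- derivative of a composition with right multiplication -/
private theorem fderiv_shift {E : Type} [NormedAddCommGroup E] [NormedSpace ℝ E]
    (f : Matrix n n ℂ → E) (c g₀ X : Matrix n n ℂ) (hc : g₀ * c = 1)
    (hf : DifferentiableAt ℝ f 1) :
    fderiv ℝ (fun g => f (g * c)) g₀ X = fderiv ℝ f 1 (X * c) := by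
  have h1 : HasFDerivAt (fun g : Matrix n n ℂ => g * c)
      ((ContinuousLinearMap.mul ℝ (Matrix n n ℂ)).flip c) g₀ :=
    ((ContinuousLinearMap.mul ℝ (Matrix n n ℂ)).flip c).hasFDerivAt
  have h2 : HasFDerivAt f (fderiv ℝ f 1) (g₀ * c) := by rw [hc]; exact hf.hasFDerivAt
  have h3 := h2.comp g₀ h1
  have h4 : fderiv ℝ (fun g => f (g * c)) g₀ =
      (fderiv ℝ f 1).comp ((ContinuousLinearMap.mul ℝ (Matrix n n ℂ)).flip c) := h3.fderiv
  exact congrArg (fun M => M X) h4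

private theorem contDiffAt_shift {E : Type} [NormedAddCommGroup E] [NormedSpace ℝ E]
    (f : Matrix n n ℂ → E) (c g₀ : Matrix n n ℂ) (hc : g₀ * c = 1) (hf : ContDiffAt ℝ ∞ f 1) :
    ContDiffAt ℝ ∞ (fun g => f (g * c)) g₀ := by
  have h1 : ContDiffAt ℝ ∞ (fun g : Matrix n n ℂ => g * c) g₀ :=
    ((ContinuousLinearMap.mul ℝ (Matrix n n ℂ)).flip c).contDiff.contDiffAt
  have h2 : ContDiffAt ℝ ∞ f (g₀ * c) := by rw [hc]; exact hf
  exact h2.comp g₀ h1

private theorem norm_br_le (x y : Matrix n n ℂ) : ‖br x y‖ ≤ 2 * ‖x‖ * ‖y‖ := by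
  unfold br
  refine (norm_sub_le _ _).trans ?_
  have h1 := norm_mul_le x y
  have h2 := norm_mul_le y x
  nlinarith

/-- derivative of the inverse along a curve -/
private theorem deriv_inv {y : ℝ → Matrix n n ℂ} {v : Matrix n n ℂ} {s : Set ℝ} {t : ℝ}
    (hu : IsUnit (y t)) (hy : HasDerivWithinAt y v s t) :
    HasDerivWithinAt (fun r => (y r)⁻¹) (-((y t)⁻¹ * v * (y t)⁻¹)) s t := by
  obtain ⟨u, hu'⟩ := hu
  have h1 := hasFDerivAt_ringInverse (𝕜 := ℝ) u
  rw [hu'] at h1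
  have h2 := h1.comp_hasDerivWithinAt t hy
  have e1 : (fun r => (y r)⁻¹) = Ring.inverse ∘ y := by
    funext r
    rw [Matrix.nonsing_inv_eq_ringInverse]
    rfl
  have e2 : ((u⁻¹ : (Matrix n n ℂ)ˣ) : Matrix n n ℂ) = (y t)⁻¹ := by
    rw [Matrix.nonsing_inv_eq_ringInverse, ← hu', Ring.inverse_unit]
  have e3 : (-((ContinuousLinearMap.mulLeftRight ℝ (Matrix n n ℂ)) (y t)⁻¹) (y t)⁻¹) v =
      -((y t)⁻¹ * v * (y t)⁻¹) := by
    rw [_root_.neg_apply, ContinuousLinearMap.mulLeftRight_apply]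
  rw [e1]
  rw [e2, e3] at h2
  exact h2

end basic

theorem pODE (h1 : StNIL) (h2 : StFLO) : StODE := by
  intro ι κ _ _ _ _ lev L P hI hL hP hstar A hA hRT T hT
  obtain ⟨m₀, M₀, hm₀, hbd⟩ := hI.bdd
  have hnil := h1 ι κ lev A hRT
  -- the projection as a real continuous linear map
  set Pc : Matrix ι ι ℂ →L[ℝ] Matrix ι ι ℂ := (P.restrictScalars ℝ).toContinuousLinearMap with hPc
  have hPca : ∀ X, Pc X = P X := fun X => rfl
  -- the two functions
  set Hf : Matrix ι ι ℂ → Matrix ι ι ℂ := fun g => Hm lev (g * A * g⁻¹) with hHf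
  set F : Matrix ι ι ℂ → ℝ := fun g => rho lev (g * A * g⁻¹) with hF
  set K : Matrix ι ι ℂ → Matrix ι ι ℂ := fun g => -(P (Hf g)) with hK
  have hRTg : ∀ g, IsUnit g → RT lev (g * A * g⁻¹) := hnil.2.1
  have hinv : ∀ g : Matrix ι ι ℂ, IsUnit g → g * g⁻¹ = 1 := fun g hg =>
    Matrix.mul_nonsing_inv g ((Matrix.isUnit_iff_isUnit_det g).1 hg)
  have hHs : ∀ g, IsUnit g → ContDiffAt ℝ ∞ Hf g := by
    intro g₀ hg₀
    have e : Hf = fun g => (fun g' => Hm lev (g' * (g₀ * A * g₀⁻¹) * g'⁻¹)) (g * g₀⁻¹) := by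
      funext g
      rw [hHf]
      simp only
      rw [conj_shift A g₀ g hg₀]
    rw [e]
    exact contDiffAt_shift _ g₀⁻¹ g₀ (hinv g₀ hg₀) (hI.smoothH _ (hRTg g₀ hg₀))
  have hFe : ∀ g₀, IsUnit g₀ →
      F = fun g => (fun g' => rho lev (g' * (g₀ * A * g₀⁻¹) * g'⁻¹)) (g * g₀⁻¹) := by
    intro g₀ hg₀
    funext g
    rw [hF]
    simp only
    rw [conj_shift A g₀ g hg₀]
  have hFs : ∀ g, IsUnit g → ContDiffAt ℝ ∞ F g := by
    intro g₀ hg₀
    rw [hFe g₀ hg₀]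
    exact contDiffAt_shift _ g₀⁻¹ g₀ (hinv g₀ hg₀) (hI.smooth _ (hRTg g₀ hg₀))
  have hKs : ∀ g, IsUnit g → ContDiffAt ℝ ∞ K g := by
    intro g₀ hg₀
    have : K = fun g => -(Pc (Hf g)) := rfl
    rw [this]
    exact (Pc.contDiff.contDiffAt.comp g₀ (hHs g₀ hg₀)).neg
  -- the projection and the trace
  have hPH : ∀ X : Matrix ι ι ℂ, X.IsHermitian → trace (P X * X) = ((‖P X‖ ^ 2 : ℝ) : ℂ) := by
    intro X hX
    have e1 : (P X)ᴴ = P X := by rw [← hstar X, hX.eq]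
    have e2 := hP.orth X (P X) (hP.mem X)
    rw [Matrix.mul_sub, Matrix.trace_sub, sub_eq_zero, e1] at e2
    rw [e2]
    have := tr_sq (P X)
    rwa [e1] at this
  have hPn : ∀ X : Matrix ι ι ℂ, ‖P X‖ ≤ ‖X‖ := by
    intro X
    by_contra hcon
    push Not at hcon
    have e2 := tr_sq (X - P X)
    have t1 := tr_sq X
    have t2 := tr_sq (P X)
    have t3 := hP.orth X (P X) (hP.mem X)
    rw [Matrix.mul_sub, Matrix.trace_sub, sub_eq_zero, t2] at t3
    have t4 : trace (Xᴴ * P X) = ((‖P X‖ ^ 2 : ℝ) : ℂ) := by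
      have : Xᴴ * P X = ((P X)ᴴ * X)ᴴ := by
        rw [Matrix.conjTranspose_mul, Matrix.conjTranspose_conjTranspose]
      rw [this, Matrix.trace_conjTranspose, t3]
      simp
    have e4 : trace ((X - P X)ᴴ * (X - P X)) = ((‖X‖ ^ 2 - ‖P X‖ ^ 2 : ℝ) : ℂ) := by
      rw [Matrix.conjTranspose_sub, Matrix.sub_mul, Matrix.mul_sub, Matrix.mul_sub,
        Matrix.trace_sub, Matrix.trace_sub, Matrix.trace_sub, t1, t2, t3, t4]
      push_cast
      ring
    rw [e4] at e2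
    have e5 : ‖X‖ ^ 2 - ‖P X‖ ^ 2 = ‖X - P X‖ ^ 2 := by exact_mod_cast e2
    have e6 : ‖X‖ ^ 2 < ‖P X‖ ^ 2 := by
      have := norm_nonneg X
      nlinarith
    have := sq_nonneg ‖X - P X‖
    linarith
  have hFd : ∀ g, IsUnit g → fderiv ℝ F g (K g * g) ≤ 0 := by
    intro g₀ hg₀
    have hA₀ := hRTg g₀ hg₀
    rw [hFe g₀ hg₀, fderiv_shift _ g₀⁻¹ g₀ _ (hinv g₀ hg₀)
      ((hI.smooth _ hA₀).differentiableAt (by simp))]
    have e1 : K g₀ * g₀ * g₀⁻¹ = K g₀ := by rw [mul_assoc, hinv g₀ hg₀, mul_one]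
    rw [e1, hI.grad _ hA₀]
    have e2 : K g₀ = -(P (Hm lev (g₀ * A * g₀⁻¹))) := rfl
    rw [e2, Matrix.neg_mul, Matrix.trace_neg, hPH _ (hI.herm _ hA₀), Complex.neg_re,
      Complex.ofReal_re]
    have := sq_nonneg ‖P (Hm lev (g₀ * A * g₀⁻¹))‖
    linarith
  have hKb : ∀ g, IsUnit g → F g ≤ F 1 → ‖K g‖ ≤ 2 * (F 1 / m₀) := by
    intro g hg hle
    have hA₀ := hRTg g hg
    have e1 : ‖K g‖ = ‖P (Hm lev (g * A * g⁻¹))‖ := norm_neg _
    rw [e1]
    refine (hPn _).trans ?_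
    have e2 := hI.eik _ hA₀
    have e3 := (hbd _ hA₀).1
    have e4 : ‖g * A * g⁻¹‖ ≤ F 1 / m₀ := by
      rw [le_div_iff₀ hm₀]
      calc ‖g * A * g⁻¹‖ * m₀ = m₀ * ‖g * A * g⁻¹‖ := mul_comm _ _
        _ ≤ F g := e3
        _ ≤ F 1 := hle
    have e5 : ‖Hm lev (g * A * g⁻¹)‖ ≤ 2 * ‖g * A * g⁻¹‖ := by
      have h0 := norm_nonneg (g * A * g⁻¹)
      have h0' := norm_nonneg (Hm lev (g * A * g⁻¹))
      by_contra hcon
      push Not at hcon
      nlinarith
    linarith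
  obtain ⟨y, hy0, hy⟩ := h2 ι K F (2 * (F 1 / m₀)) T
    (fun g hg => (hKs g hg).of_le (by exact_mod_cast le_top))
    (fun g hg => (hFs g hg).differentiableAt (by simp)) hFd hKb hT
  refine ⟨y, hy0, ?_⟩
  -- membership
  have hcont : ContinuousOn y (Set.Icc 0 T) := fun t ht => (hy t ht).2.continuousWithinAt
  have hKc : ContinuousOn (fun t => K (y t)) (Set.Icc 0 T) := by
    intro t ht
    exact (hKs (y t) (hy t ht).1).continuousAt.comp_continuousWithinAt (hcont t ht)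
  obtain ⟨C, hC⟩ := isCompact_Icc.exists_bound_of_continuousOn hKc
  set At : ℝ → Matrix ι ι ℂ := fun t => y t * A * (y t)⁻¹ with hAt
  have hAtd : ∀ t ∈ Set.Icc (0 : ℝ) T, HasDerivWithinAt At (br (K (y t)) (At t)) (Set.Icc 0 T) t := by
    intro t ht
    obtain ⟨hu, hd⟩ := hy t ht
    have h3 := (hd.mul_const A).mul (deriv_inv hu hd)
    have e : K (y t) * y t * A * (y t)⁻¹ + y t * A * -((y t)⁻¹ * (K (y t) * y t) * (y t)⁻¹) =
        br (K (y t)) (At t) := by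
      unfold br
      rw [hAt]
      simp only
      have hiu := hinv (y t) hu
      have : (y t)⁻¹ * (K (y t) * y t) * (y t)⁻¹ = (y t)⁻¹ * K (y t) := by
        rw [mul_assoc, mul_assoc, hiu, mul_one]
      rw [this]
      noncomm_ring
    rw [← e]
    exact h3
  set Q : ℝ → Matrix ι ι ℂ := fun t => At t - Pc (At t) with hQ
  have hQd : ∀ t ∈ Set.Icc (0 : ℝ) T, HasDerivWithinAt Q
      (br (K (y t)) (Q t) - Pc (br (K (y t)) (Q t))) (Set.Icc 0 T) t := by
    intro t ht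
    have h3 := hAtd t ht
    have h4 : HasDerivWithinAt (fun t => Pc (At t)) (Pc (br (K (y t)) (At t))) (Set.Icc 0 T) t :=
      Pc.hasFDerivAt.comp_hasDerivWithinAt t h3
    have h5 := h3.sub h4
    have hKL : K (y t) ∈ L := by
      rw [hK]
      exact L.neg_mem (hP.mem _)
    have e : br (K (y t)) (At t) - Pc (br (K (y t)) (At t)) =
        br (K (y t)) (Q t) - Pc (br (K (y t)) (Q t)) := by
      have e1 : At t = Q t + P (At t) := by rw [hQ]; simp only [hPca]; abel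
      have e2 : br (K (y t)) (At t) = br (K (y t)) (Q t) + br (K (y t)) (P (At t)) := by
        conv_lhs => rw [e1]
        unfold br
        noncomm_ring
      have e3 : br (K (y t)) (P (At t)) ∈ L := hL.lie _ hKL _ (hP.mem _)
      rw [e2, map_add, hPca (br (K (y t)) (P (At t))), hP.fix _ e3]
      abel
    rw [e] at h5
    exact h5
  have hQ0 : Q 0 = 0 := by
    rw [hQ]
    simp only [hAt, hy0, hPca]
    have : (1 : Matrix ι ι ℂ) * A * (1 : Matrix ι ι ℂ)⁻¹ = A := by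
      rw [inv_one, mul_one, one_mul]
    rw [this, hP.fix A hA, sub_self]
  have hQz : ∀ t ∈ Set.Icc (0 : ℝ) T, Q t = 0 := by
    intro t ht
    have hg := norm_le_gronwallBound_of_norm_deriv_right_le (f := Q)
      (f' := fun t => br (K (y t)) (Q t) - Pc (br (K (y t)) (Q t))) (δ := 0)
      (K := 2 * (2 * C)) (ε := 0) (a := 0) (b := T)
      (fun t ht => (hQd t ht).continuousWithinAt)
      (fun t ht => by
        have h6 := hQd t ⟨ht.1, ht.2.le⟩
        have h7 : HasDerivWithinAt Q (br (K (y t)) (Q t) - Pc (br (K (y t)) (Q t)))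
          (Set.Icc t T) t := h6.mono (Set.Icc_subset_Icc_left ht.1)
        exact h7.mono_of_mem_nhdsWithin (Icc_mem_nhdsGE ht.2))
      (by rw [hQ0, norm_zero])
      (fun t ht => by
        have hCt := hC t ⟨ht.1, ht.2.le⟩
        have b1 := norm_br_le (K (y t)) (Q t)
        have b2 : ‖Pc (br (K (y t)) (Q t))‖ ≤ ‖br (K (y t)) (Q t)‖ := hPn _
        have b3 : ‖br (K (y t)) (Q t)‖ ≤ 2 * C * ‖Q t‖ := by
          refine b1.trans ?_
          have := norm_nonneg (Q t)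
          nlinarith
        rw [add_zero]
        have b4 := norm_sub_le (br (K (y t)) (Q t)) (Pc (br (K (y t)) (Q t)))
        linarith)
      t ht
    rw [gronwallBound_ε0_δ0] at hg
    exact norm_le_zero_iff.1 hg
  intro t ht
  refine ⟨(hy t ht).1, ?_, (hy t ht).2⟩
  have hz := hQz t ht
  rw [hQ] at hz
  simp only [hPca] at hz
  have e : At t = P (At t) := sub_eq_zero.1 hz
  change At t ∈ L
  rw [e]
  exact hP.mem _

end Pool.Agent.Helper42.NO
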